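import Mathlib

/-!
# A word over seven letters without abelian squares and without one-hole abelian squares

`w n` is the sum modulo `7` of the images under `0 2 4 1 5 0 4 5 6 0` of the decimal digits of `n`.
-/

namespace Pool.Agent.Q241.AbelWord

/-- Letter table. -/
def W (i : ℕ) : ℕ :=
  match i with
  | 1 => 2 | 2 => 4 | 3 => 1 | 4 => 5 | 6 => 4 | 7 => 5 | 8 => 6 | _ => 0

/-- The word. -/
def w (n : ℕ) : ZMod 7 := ((Nat.digits 10 n).map (fun i => (W i : ZMod 7))).sum

theorem w_block (q i : ℕ) (hi : i < 10) : w (10 * q + i) = w q + (W i : ZMod 7) := by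
  unfold w
  rcases Nat.eq_zero_or_pos (10 * q + i) with h | h
  · have hq : q = 0 := by omega
    have hi0 : i = 0 := by omega
    subst hq hi0
    simp [W]
  · rw [Nat.digits_def' (by norm_num) h]
    have h1 : (10 * q + i) % 10 = i := by omega
    have h2 : (10 * q + i) / 10 = q := by omega
    rw [h1, h2, List.map_cons, List.sum_cons, add_comm]

/-- Weighted prefix sums. -/
def S (g : ZMod 7 → ℤ) (p : ℕ) : ℤ := ∑ t ∈ Finset.range p, g (w t)

/-- Weighted prefix sums of a block. -/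
def pre (g : ZMod 7 → ℤ) (a : ZMod 7) (i : ℕ) : ℤ :=
  ∑ t ∈ Finset.range i, g (a + (W t : ZMod 7))

theorem S_mul (g : ZMod 7 → ℤ) (q : ℕ) : S g (10 * q) = S (fun a => pre g a 10) q := by
  induction q with
  | zero => simp [S]
  | succ q ih =>
    have h1 : 10 * (q + 1) = 10 * q + 10 := by ring
    have h2 : S g (10 * q + 10) = S g (10 * q) + pre g (w q) 10 := by
      unfold S pre
      rw [Finset.sum_range_add]
      congr 1
      apply Finset.sum_congr rfl
      intro t ht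
      rw [w_block q t (Finset.mem_range.mp ht)]
    rw [h1, h2, ih]
    unfold S
    rw [Finset.sum_range_succ]

theorem S_block (g : ZMod 7 → ℤ) (q i : ℕ) (hi : i ≤ 10) :
    S g (10 * q + i) = S (fun a => pre g a 10) q + pre g (w q) i := by
  rw [← S_mul]
  unfold S pre
  rw [Finset.sum_range_add]
  congr 1
  apply Finset.sum_congr rfl
  intro t ht
  rw [w_block q t (by have := Finset.mem_range.mp ht; omega)]

theorem S_succ (g : ZMod 7 → ℤ) (p : ℕ) : S g (p + 1) = S g p + g (w p) := by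
  unfold S
  rw [Finset.sum_range_succ]

theorem S_one (p : ℕ) : S (fun _ => 1) p = p := by
  simp [S]

/-- Coincidences. -/
def Coin (p0 p1 p1' p2 : ℕ) : Prop :=
  p0 < p1 ∧ p1 ≤ p1' ∧ p1' ≤ p1 + 1 ∧ p1' < p2 ∧
    ∀ g : ZMod 7 → ℤ, S g p0 + S g p2 = S g p1 + S g p1'

/-! ### The dual functional -/

/-- The dual functional. -/
def G0 (x : ZMod 7) : ℤ :=
  match x.val with
  | 0 => 683 | 1 => -17 | 2 => -267 | 3 => -557 | 4 => 343 | 5 => 263 | _ => -167

theorem G0_block : ∀ a : ZMod 7, pre G0 a 10 = if a = 0 then 2810 else 0 := by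
  decide +kernel

/-- Shifted functional. -/
def sh (b : ZMod 7) (g : ZMod 7 → ℤ) : ZMod 7 → ℤ := fun x => g (x - b)

theorem pre_sh (b : ZMod 7) (g : ZMod 7 → ℤ) (a : ZMod 7) (i : ℕ) :
    pre (sh b g) a i = pre g (a - b) i := by
  unfold pre sh
  apply Finset.sum_congr rfl
  intro t _
  congr 1
  ring

/-- The functional whose block sums are `2810 g`. -/
def lift (g : ZMod 7 → ℤ) : ZMod 7 → ℤ := fun x => ∑ y : ZMod 7, g y * sh y G0 x

theorem lift_block (g : ZMod 7 → ℤ) (a : ZMod 7) : pre (lift g) a 10 = 2810 * g a := by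
  have h1 : pre (lift g) a 10 = ∑ y : ZMod 7, g y * pre (sh y G0) a 10 := by
    unfold pre lift
    rw [Finset.sum_comm]
    apply Finset.sum_congr rfl
    intro y _
    rw [Finset.mul_sum]
  rw [h1]
  have h2 : ∀ y : ZMod 7, g y * pre (sh y G0) a 10 = if y = a then 2810 * g a else 0 := by
    intro y
    rw [pre_sh, G0_block]
    by_cases h : y = a
    · subst h; simp; ring
    · have : a - y ≠ 0 := fun h' => h (sub_eq_zero.mp h').symm
      simp [h, this]
  rw [Finset.sum_congr rfl (fun y _ => h2 y)]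
  simp

/-- Expansion in indicator functions. -/
theorem pre_expand (g : ZMod 7 → ℤ) (a : ZMod 7) (i : ℕ) :
    pre g a i = ∑ x : ZMod 7, g x * pre (fun y => if y = x then 1 else 0) a i := by
  unfold pre
  simp_rw [Finset.mul_sum]
  rw [Finset.sum_comm]
  apply Finset.sum_congr rfl
  intro t _
  simp

/-! ### First finite check -/

/-- Residues modulo `2810` of the prefix values of `G0`. -/
def PFt : List (List ℕ) :=
  [[0, 683, 416, 759, 742, 1005, 1688, 2031, 2294, 2127], [0, 2793, 2236, 2499, 2232, 2065, 2048, 2311, 2144, 17], [0, 2543, 76, 2719, 2162, 35, 2578, 2411, 284, 267], [0, 2253, 2516, 389, 732, 715, 158, 841, 824, 557], [0, 343, 176, 159, 422, 155, 498, 481, 214, 2467], [0, 263, 946, 679, 512, 2765, 218, 2761, 2204, 2547], [0, 2643, 2626, 2069, 2752, 285, 118, 2371, 2714, 167]]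

/-- Table lookup. -/
def PF (a i : ℕ) : ℕ := (PFt.getD a []).getD i 0

/-- Number of `t < i` such that the `t`-th letter of the block of `a` is `x`. -/
def cnt (a x : ℕ) : ℕ → ℕ
  | 0 => 0
  | i + 1 => cnt a x i + (if (a + W i) % 7 = x then 1 else 0)

/-- The vector equation with shifts. -/
def vecEq (a c b2 i0 i1 i1b i2 d0 d1 d1b d2 : ℕ) : Bool :=
  (List.range 7).all fun x =>
    cnt 0 x i1 + cnt b2 x i1b + d0 * cnt a x 10 + d2 * cnt c x 10 ==
      cnt a x i0 + cnt c x i2 + d1 * cnt 0 x 10 + d1b * cnt b2 x 10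

/-- One test. -/
def t1 (a c i0 i1 b2 i1b s : ℕ) : Bool :=
  if (PF a i0 + PF c ((i1 + i1b + 10 - i0) % 10)) % 2810 = (PF 0 i1 + PF b2 i1b) % 2810 then
    (List.range 2).any fun d0 => (List.range 2).any fun d1 => (List.range 2).any fun d1b =>
      (List.range 2).any fun d2 => Nat.ble (s + d1b) (d1 + 1) && Nat.ble d1 (s + d1b + 1) &&
        vecEq a c b2 i0 i1 i1b ((i1 + i1b + 10 - i0) % 10) d0 d1 d1b d2
  else true

/-- All tests. -/
def check1 : Bool :=
  (List.range 7).all fun a => (List.range 7).all fun c => (List.range 10).all fun i0 =>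
    (List.range 10).all fun i1 => t1 a c i0 i1 0 i1 0 &&
      (if i1 < 9 then t1 a c i0 i1 0 (i1 + 1) 0
        else (List.range 7).all fun b2 => t1 a c i0 i1 b2 0 1)

theorem check1_true : check1 = true := by decide +kernel

theorem check1_spec {a c i0 i1 b2 i1b s : ℕ} (ha : a < 7) (hc : c < 7) (hi0 : i0 < 10)
    (hi1 : i1 < 10) (hb2 : b2 < 7)
    (h : (b2 = 0 ∧ s = 0 ∧ (i1b = i1 ∨ (i1 < 9 ∧ i1b = i1 + 1))) ∨
      (i1 = 9 ∧ i1b = 0 ∧ s = 1)) : t1 a c i0 i1 b2 i1b s = true := by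
  have h1 := check1_true
  unfold check1 at h1
  rw [List.all_eq_true] at h1
  have h2 := h1 a (List.mem_range.mpr ha)
  rw [List.all_eq_true] at h2
  have h3 := h2 c (List.mem_range.mpr hc)
  rw [List.all_eq_true] at h3
  have h4 := h3 i0 (List.mem_range.mpr hi0)
  rw [List.all_eq_true] at h4
  have h5 := h4 i1 (List.mem_range.mpr hi1)
  rw [Bool.and_eq_true] at h5
  rcases h with ⟨rfl, rfl, rfl | ⟨h6, rfl⟩⟩ | ⟨rfl, rfl, rfl⟩
  · exact h5.1
  · have h7 := h5.2
    rw [if_pos h6] at h7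
    exact h7
  · have h7 := h5.2
    rw [if_neg (by norm_num), List.all_eq_true] at h7
    exact h7 b2 (List.mem_range.mpr hb2)

theorem cnt_eq : ∀ a : Fin 7, ∀ x : Fin 7, ∀ i : Fin 11, ((cnt a.1 x.1 i.1 : ℕ) : ℤ) =
    pre (fun y => if y = ((x.1 : ℕ) : ZMod 7) then 1 else 0) ((a.1 : ℕ) : ZMod 7) i.1 := by
  decide +kernel

theorem PF_eq : ∀ a : Fin 7, ∀ i : Fin 10,
    (pre G0 ((a.1 : ℕ) : ZMod 7) i.1 - (PF a.1 i.1 : ℕ)) % 2810 = 0 := by
  decide +kernel

theorem pre_cnt (g : ZMod 7 → ℤ) (a : ℕ) (ha : a < 7) (i : ℕ) (hi : i ≤ 10) :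
    pre g (a : ZMod 7) i = ∑ x : Fin 7, g ((x.1 : ℕ) : ZMod 7) * ((cnt a x.1 i : ℕ) : ℤ) := by
  rw [pre_expand]
  have h1 : ∀ x : Fin 7, ((x.1 : ℕ) : ZMod 7) = (show ZMod 7 from x) := by decide
  set F : ZMod 7 → ℤ := fun x => g x * pre (fun y => if y = x then 1 else 0) (a : ZMod 7) i with hF
  have h2 : ∑ x : ZMod 7, F x = ∑ x : Fin 7, F (show ZMod 7 from x) := rfl
  rw [h2]
  apply Finset.sum_congr rfl
  intro x _
  have h3 := cnt_eq ⟨a, ha⟩ x ⟨i, by omega⟩
  simp only at h3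
  rw [h3]
  have h4 : F (show ZMod 7 from x) = F ((x.1 : ℕ) : ZMod 7) := congrArg F (h1 x).symm
  exact h4

theorem fc1 {A B B' C : ZMod 7} {i0 i1 i1b i2 s : ℕ} (hi0 : i0 < 10) (hi1 : i1 < 10)
    (hi1b : i1b < 10)
    (hcase : (B' = B ∧ s = 0 ∧ (i1b = i1 ∨ (i1 < 9 ∧ i1b = i1 + 1))) ∨
      (i1 = 9 ∧ i1b = 0 ∧ s = 1))
    (hlen : i2 = (i1 + i1b + 10 - i0) % 10)
    (hmod : (2810 : ℤ) ∣ pre (sh B G0) A i0 + pre (sh B G0) C i2 - pre (sh B G0) B i1 -
      pre (sh B G0) B' i1b) :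
    ∃ d0 d1 d1b d2 : ℕ, d0 ≤ 1 ∧ d1 ≤ 1 ∧ d1b ≤ 1 ∧ d2 ≤ 1 ∧ s + d1b ≤ d1 + 1 ∧
      d1 ≤ s + d1b + 1 ∧ ∀ g : ZMod 7 → ℤ,
        pre g B i1 + pre g B' i1b + d0 * pre g A 10 + d2 * pre g C 10 =
          pre g A i0 + pre g C i2 + d1 * pre g B 10 + d1b * pre g B' 10 := by
  have hval : ∀ x : ZMod 7, ((x.val : ℕ) : ZMod 7) = x := by decide
  have hlt : ∀ x : ZMod 7, x.val < 7 := by decide
  have hi2 : i2 < 10 := by omega
  set a := (A - B).val with ha
  set c := (C - B).val with hc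
  set b2 := (B' - B).val with hb2
  have ha7 : a < 7 := hlt _
  have hc7 : c < 7 := hlt _
  have hb7 : b2 < 7 := hlt _
  have hae : (a : ZMod 7) = A - B := hval _
  have hce : (c : ZMod 7) = C - B := hval _
  have hbe : (b2 : ZMod 7) = B' - B := hval _
  have h0e : ((0 : ℕ) : ZMod 7) = B - B := by simp
  have ht : t1 a c i0 i1 b2 i1b s = true := by
    apply check1_spec ha7 hc7 hi0 hi1 hb7
    rcases hcase with ⟨h1, h2, h3⟩ | h
    · refine Or.inl ⟨?_, h2, h3⟩
      rw [hb2, h1, sub_self]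
      rfl
    · exact Or.inr h
  unfold t1 at ht
  rw [← hlen] at ht
  -- the congruence
  rw [pre_sh, pre_sh, pre_sh, pre_sh, ← hae, ← hce, ← hbe, ← h0e] at hmod
  have e1 := PF_eq ⟨a, ha7⟩ ⟨i0, hi0⟩
  have e2 := PF_eq ⟨c, hc7⟩ ⟨i2, hi2⟩
  have e3 := PF_eq ⟨0, by norm_num⟩ ⟨i1, hi1⟩
  have e4 := PF_eq ⟨b2, hb7⟩ ⟨i1b, hi1b⟩
  simp only at e1 e2 e3 e4
  have hcond : (PF a i0 + PF c i2) % 2810 = (PF 0 i1 + PF b2 i1b) % 2810 := by
    omega
  rw [if_pos hcond] at ht
  rw [List.any_eq_true] at ht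
  obtain ⟨d0, hd0, ht⟩ := ht
  rw [List.any_eq_true] at ht
  obtain ⟨d1, hd1, ht⟩ := ht
  rw [List.any_eq_true] at ht
  obtain ⟨d1b, hd1b, ht⟩ := ht
  rw [List.any_eq_true] at ht
  obtain ⟨d2, hd2, ht⟩ := ht
  rw [List.mem_range] at hd0 hd1 hd1b hd2
  rw [Bool.and_eq_true, Bool.and_eq_true, Nat.ble_eq, Nat.ble_eq] at ht
  obtain ⟨⟨ht1, ht2⟩, ht3⟩ := ht
  refine ⟨d0, d1, d1b, d2, by omega, by omega, by omega, by omega, ht1, ht2, ?_⟩
  intro g
  have hx : ∀ x : Fin 7, ((cnt 0 x.1 i1 : ℕ) : ℤ) + (cnt b2 x.1 i1b : ℕ) +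
      d0 * (cnt a x.1 10 : ℕ) + d2 * (cnt c x.1 10 : ℕ) =
      (cnt a x.1 i0 : ℕ) + (cnt c x.1 i2 : ℕ) + d1 * (cnt 0 x.1 10 : ℕ) +
        d1b * (cnt b2 x.1 10 : ℕ) := by
    intro x
    unfold vecEq at ht3
    rw [List.all_eq_true] at ht3
    have h := ht3 x.1 (List.mem_range.mpr x.2)
    rw [beq_iff_eq] at h
    exact_mod_cast h
  set g' : ZMod 7 → ℤ := sh (-B) g with hg'
  have hsh : ∀ (D : ZMod 7) (i : ℕ), pre g D i = pre g' (D - B) i := by
    intro D i
    rw [hg', pre_sh]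
    congr 1
    ring
  rw [hsh B i1, hsh B' i1b, hsh A 10, hsh C 10, hsh A i0, hsh C i2, hsh B 10, hsh B' 10,
    ← hae, ← hce, ← hbe, ← h0e]
  rw [pre_cnt g' 0 (by norm_num) i1 (by omega), pre_cnt g' b2 hb7 i1b (by omega),
    pre_cnt g' a ha7 10 le_rfl, pre_cnt g' c hc7 10 le_rfl, pre_cnt g' a ha7 i0 (by omega),
    pre_cnt g' c hc7 i2 (by omega), pre_cnt g' 0 (by norm_num) 10 le_rfl,
    pre_cnt g' b2 hb7 10 le_rfl]
  simp only [Finset.mul_sum, ← Finset.sum_add_distrib]
  apply Finset.sum_congr rfl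
  intro x _
  linear_combination (g' ((x.1 : ℕ) : ZMod 7)) * hx x

/-! ### Second finite check: windows of four blocks -/

/-- The letter at position `t` of the window of four blocks with leading letters `0`, `al`,
`al + be`, `al + be + ga`. -/
def wl (al be ga t : ℕ) : ℕ :=
  if t < 10 then W t % 7
  else if t < 20 then (al + W (t - 10)) % 7
  else if t < 30 then (al + be + W (t - 20)) % 7
  else (al + be + ga + W (t - 30)) % 7

/-- Encoded prefix counts. -/
def enc (al be ga : ℕ) : ℕ → ℕ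
  | 0 => 0
  | t + 1 => enc al be ga t + 64 ^ wl al be ga t

/-- No coincidence in a window. -/
def check2 : Bool :=
  [1, 2, 4].all fun al => [1, 2, 4].all fun be => [1, 2, 4].all fun ga =>
    (List.range 10).all fun i0 => (List.range 20).all fun l => (List.range 2).all fun h =>
      if 1 ≤ l ∧ i0 + 2 * l + h ≤ 40 then
        enc al be ga i0 + enc al be ga (i0 + 2 * l + h) !=
          enc al be ga (i0 + l) + enc al be ga (i0 + l + h)
      else true

theorem check2_true : check2 = true := by decide +kernel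

theorem check2_spec {al be ga i0 l h : ℕ} (hal : al = 1 ∨ al = 2 ∨ al = 4)
    (hbe : be = 1 ∨ be = 2 ∨ be = 4) (hga : ga = 1 ∨ ga = 2 ∨ ga = 4) (hi0 : i0 < 10)
    (hl : 1 ≤ l) (hh : h ≤ 1) (hle : i0 + 2 * l + h ≤ 39) :
    enc al be ga i0 + enc al be ga (i0 + 2 * l + h) ≠
      enc al be ga (i0 + l) + enc al be ga (i0 + l + h) := by
  have h1 := check2_true
  unfold check2 at h1
  rw [List.all_eq_true] at h1
  have h2 := h1 al (by simp; tauto)
  rw [List.all_eq_true] at h2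
  have h3 := h2 be (by simp; tauto)
  rw [List.all_eq_true] at h3
  have h4 := h3 ga (by simp; tauto)
  rw [List.all_eq_true] at h4
  have h5 := h4 i0 (List.mem_range.mpr hi0)
  rw [List.all_eq_true] at h5
  have h6 := h5 l (List.mem_range.mpr (by omega))
  rw [List.all_eq_true] at h6
  have h7 := h6 h (List.mem_range.mpr (by omega))
  rw [if_pos ⟨hl, by omega⟩] at h7
  exact bne_iff_ne.mp h7

theorem w_succ (q : ℕ) : ∃ al : ℕ, (al = 1 ∨ al = 2 ∨ al = 4) ∧ w (q + 1) = w q + (al : ZMod 7) := by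
  induction q using Nat.strong_induction_on with
  | _ q ih =>
    have hq : q = 10 * (q / 10) + q % 10 := by omega
    have hlt : q % 10 < 10 := Nat.mod_lt _ (by norm_num)
    have h1 : w q = w (q / 10) + (W (q % 10) : ZMod 7) := by
      conv_lhs => rw [hq]
      exact w_block _ _ hlt
    by_cases h9 : q % 10 = 9
    · have h2 : q + 1 = 10 * (q / 10 + 1) + 0 := by omega
      have h3 : w (q + 1) = w (q / 10 + 1) + (W 0 : ZMod 7) := by
        rw [h2]
        exact w_block _ _ (by norm_num)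
      obtain ⟨al, hal, h4⟩ := ih (q / 10) (by omega)
      refine ⟨al, hal, ?_⟩
      rw [h3, h4, h1, h9]
      simp [W]
    · have h2 : q + 1 = 10 * (q / 10) + (q % 10 + 1) := by omega
      have h3 : w (q + 1) = w (q / 10) + (W (q % 10 + 1) : ZMod 7) := by
        conv_lhs => rw [h2]
        exact w_block _ _ (by omega)
      have h4 : ∃ al : ℕ, (al = 1 ∨ al = 2 ∨ al = 4) ∧
          (W (q % 10 + 1) : ZMod 7) = (W (q % 10) : ZMod 7) + (al : ZMod 7) := by
        have h5 : q % 10 < 9 := by omega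
        generalize q % 10 = i at h5
        interval_cases i
        · exact ⟨2, by norm_num, by decide⟩
        · exact ⟨2, by norm_num, by decide⟩
        · exact ⟨4, by norm_num, by decide⟩
        · exact ⟨4, by norm_num, by decide⟩
        · exact ⟨2, by norm_num, by decide⟩
        · exact ⟨4, by norm_num, by decide⟩
        · exact ⟨1, by norm_num, by decide⟩
        · exact ⟨1, by norm_num, by decide⟩
        · exact ⟨1, by norm_num, by decide⟩
      obtain ⟨al, hal, h5⟩ := h4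
      refine ⟨al, hal, ?_⟩
      rw [h3, h5, h1]
      ring

/-- The encoding functional. -/
def genc (b x : ZMod 7) : ℤ := 64 ^ (x - b).val

theorem window {q : ℕ} {al be ga : ℕ} (h1 : w (q + 1) = w q + (al : ZMod 7))
    (h2 : w (q + 1 + 1) = w (q + 1) + (be : ZMod 7))
    (h3 : w (q + 1 + 1 + 1) = w (q + 1 + 1) + (ga : ZMod 7)) :
    ∀ t, t ≤ 40 → S (genc (w q)) (10 * q + t) = S (genc (w q)) (10 * q) + (enc al be ga t : ℕ) := by
  have hmod : ∀ n : ℕ, ((n % 7 : ℕ) : ZMod 7) = (n : ZMod 7) := fun n => ZMod.natCast_mod n 7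
  have hlet : ∀ t, t < 40 → w (10 * q + t) - w q = (wl al be ga t : ZMod 7) := by
    intro t ht
    unfold wl
    split_ifs with h4 h5 h6
    · rw [w_block q t h4, hmod]; ring
    · have : 10 * q + t = 10 * (q + 1) + (t - 10) := by omega
      rw [this, w_block _ _ (by omega), h1, hmod]; push_cast; ring
    · have : 10 * q + t = 10 * (q + 1 + 1) + (t - 20) := by omega
      rw [this, w_block _ _ (by omega), h2, h1, hmod]; push_cast; ring
    · have : 10 * q + t = 10 * (q + 1 + 1 + 1) + (t - 30) := by omega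
      rw [this, w_block _ _ (by omega), h3, h2, h1, hmod]; push_cast; ring
  have hlt : ∀ t, wl al be ga t < 7 := by
    intro t
    unfold wl
    split_ifs <;> exact Nat.mod_lt _ (by norm_num)
  intro t
  induction t with
  | zero => intro _; simp [enc]
  | succ t ih =>
    intro ht
    rw [← add_assoc, S_succ, ih (by omega)]
    unfold genc
    rw [hlet t (by omega), ZMod.val_natCast, Nat.mod_eq_of_lt (hlt t)]
    simp only [enc]
    push_cast
    ring

/-- The word has no coincidences. -/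
theorem no_coin : ∀ p2 p0 p1 p1' : ℕ, ¬ Coin p0 p1 p1' p2 := by
  intro p2
  induction p2 using Nat.strong_induction_on with
  | _ p2 ih =>
    rintro p0 p1 p1' ⟨h01, h11, h11', h12, heq⟩
    have hsum : p0 + p2 = p1 + p1' := by
      have := heq (fun _ => 1)
      simp only [S_one] at this
      exact_mod_cast this
    obtain ⟨q0, i0, hi0, rfl⟩ : ∃ q i, i < 10 ∧ p0 = 10 * q + i :=
      ⟨p0 / 10, p0 % 10, Nat.mod_lt _ (by norm_num), by omega⟩
    obtain ⟨q1, i1, hi1, rfl⟩ : ∃ q i, i < 10 ∧ p1 = 10 * q + i :=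
      ⟨p1 / 10, p1 % 10, Nat.mod_lt _ (by norm_num), by omega⟩
    obtain ⟨q1', i1', hi1', rfl⟩ : ∃ q i, i < 10 ∧ p1' = 10 * q + i :=
      ⟨p1' / 10, p1' % 10, Nat.mod_lt _ (by norm_num), by omega⟩
    obtain ⟨q2, i2, hi2, rfl⟩ : ∃ q i, i < 10 ∧ p2 = 10 * q + i :=
      ⟨p2 / 10, p2 % 10, Nat.mod_lt _ (by norm_num), by omega⟩
    have hs : ∃ s : ℕ, s ≤ 1 ∧ q1' = q1 + s ∧
        ((w q1' = w q1 ∧ s = 0 ∧ (i1' = i1 ∨ (i1 < 9 ∧ i1' = i1 + 1))) ∨
          (i1 = 9 ∧ i1' = 0 ∧ s = 1)) := by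
      by_cases h : q1' = q1
      · subst h
        exact ⟨0, by omega, by omega, Or.inl ⟨rfl, rfl, by omega⟩⟩
      · exact ⟨1, le_rfl, by omega, Or.inr ⟨by omega, by omega, rfl⟩⟩
    obtain ⟨s, hs1, hq, hcase⟩ := hs
    have hlen : i2 = (i1 + i1' + 10 - i0) % 10 := by omega
    have hS : ∀ (g : ZMod 7 → ℤ) (q i : ℕ), i < 10 →
        S g (10 * q + i) = S (fun a => pre g a 10) q + pre g (w q) i :=
      fun g q i hi => S_block g q i hi.le
    have hmod : (2810 : ℤ) ∣ pre (sh (w q1) G0) (w q0) i0 + pre (sh (w q1) G0) (w q2) i2 -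
        pre (sh (w q1) G0) (w q1) i1 - pre (sh (w q1) G0) (w q1') i1' := by
      have hdv : ∀ q, (2810 : ℤ) ∣ S (fun a => pre (sh (w q1) G0) a 10) q := by
        intro q
        unfold S
        apply Finset.dvd_sum
        intro t _
        change (2810 : ℤ) ∣ pre (sh (w q1) G0) (w t) 10
        rw [pre_sh, G0_block]
        split_ifs
        · exact dvd_rfl
        · exact dvd_zero _
      have h := heq (sh (w q1) G0)
      rw [hS _ _ _ hi0, hS _ _ _ hi1, hS _ _ _ hi1', hS _ _ _ hi2] at h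
      have h0 := hdv q0
      have h1 := hdv q1
      have h1' := hdv q1'
      have h2 := hdv q2
      have hd := dvd_sub (dvd_sub (dvd_add h1 h1') h0) h2
      have he : pre (sh (w q1) G0) (w q0) i0 + pre (sh (w q1) G0) (w q2) i2 -
        pre (sh (w q1) G0) (w q1) i1 - pre (sh (w q1) G0) (w q1') i1' =
        S (fun a => pre (sh (w q1) G0) a 10) q1 + S (fun a => pre (sh (w q1) G0) a 10) q1' -
        S (fun a => pre (sh (w q1) G0) a 10) q0 -
        S (fun a => pre (sh (w q1) G0) a 10) q2 := by linarith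
      rw [he]
      exact hd
    obtain ⟨d0, d1, d1b, d2, hd0, hd1, hd1b, hd2, hA, hB, hvec⟩ :=
      fc1 hi0 hi1 hi1' hcase hlen hmod
    -- the coincidence one level up
    have hstep : ∀ (g : ZMod 7 → ℤ) (q d : ℕ), d ≤ 1 → S g (q + d) = S g q + d * g (w q) := by
      intro g q d hd
      rcases Nat.le_one_iff_eq_zero_or_eq_one.mp hd with rfl | rfl
      · simp
      · rw [S_succ]; simp
    have hup : ∀ g : ZMod 7 → ℤ,
        S g (q0 + d0) + S g (q2 + d2) = S g (q1 + d1) + S g (q1' + d1b) := by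
      intro g
      rw [hstep g q0 d0 hd0, hstep g q1 d1 hd1, hstep g q1' d1b hd1b, hstep g q2 d2 hd2]
      have h := heq (lift g)
      rw [hS _ _ _ hi0, hS _ _ _ hi1, hS _ _ _ hi1', hS _ _ _ hi2] at h
      have hl : ∀ q, S (fun a => pre (lift g) a 10) q = 2810 * S g q := by
        intro q
        unfold S
        rw [Finset.mul_sum]
        apply Finset.sum_congr rfl
        intro t _
        exact lift_block g (w t)
      rw [hl, hl, hl, hl] at h
      have hv := hvec (lift g)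
      rw [lift_block, lift_block, lift_block, lift_block] at hv
      linarith
    have hsum' : q0 + d0 + (q2 + d2) = q1 + d1 + (q1' + d1b) := by
      have := hup (fun _ => 1)
      simp only [S_one] at this
      exact_mod_cast this
    by_cases hlow : q0 + d0 < min (q1 + d1) (q1' + d1b)
    · -- induction
      rcases le_total (q1 + d1) (q1' + d1b) with hle | hle
      · refine ih (q2 + d2) (by omega) (q0 + d0) (q1 + d1) (q1' + d1b)
          ⟨by omega, hle, by omega, by omega, hup⟩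
      · refine ih (q2 + d2) (by omega) (q0 + d0) (q1' + d1b) (q1 + d1)
          ⟨by omega, hle, by omega, by omega, fun g => by rw [hup g]; ring⟩
    · -- window
      have hq2 : q2 ≤ q0 + 3 := by omega
      obtain ⟨al, hal, e1⟩ := w_succ q0
      obtain ⟨be, hbe, e2⟩ := w_succ (q0 + 1)
      obtain ⟨ga, hga, e3⟩ := w_succ (q0 + 1 + 1)
      have hw := window e1 e2 e3
      obtain ⟨l, hl⟩ : ∃ l, 10 * q1 + i1 = 10 * q0 + (i0 + l) :=
        ⟨10 * q1 + i1 - (10 * q0 + i0), by omega⟩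
      obtain ⟨h, hh⟩ : ∃ h, 10 * q1' + i1' = 10 * q0 + (i0 + l + h) :=
        ⟨10 * q1' + i1' - (10 * q1 + i1), by omega⟩
      have hp2 : 10 * q2 + i2 = 10 * q0 + (i0 + 2 * l + h) := by omega
      have hfin := heq (genc (w q0))
      rw [hl, hh, hp2, hw i0 (by omega), hw (i0 + l) (by omega), hw (i0 + l + h) (by omega),
        hw (i0 + 2 * l + h) (by omega)] at hfin
      refine check2_spec (al := al) (be := be) (ga := ga) (i0 := i0) (l := l) (h := h)
        hal hbe hga hi0 (by omega) (by omega) (by omega) ?_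
      have : ((enc al be ga i0 + enc al be ga (i0 + 2 * l + h) : ℕ) : ℤ) =
          ((enc al be ga (i0 + l) + enc al be ga (i0 + l + h) : ℕ) : ℤ) := by
        push_cast
        linarith
      exact_mod_cast this

end Pool.Agent.Q241.AbelWord
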