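import Mathlib

/-!
# Polynomial frames for outerplanar graphs

Every graph on the integers without interleaving edges is mapped injectively to `ℤ[X]` such that
the difference along each edge is `± X^m` or `± X^m (1 - X)`.
-/

namespace Pool.Agent.Q241.OuterFrames

open Polynomial

/-- Positive polynomials: the lowest nonzero coefficient is positive. -/
def Pos (q : ℤ[X]) : Prop := 0 < q.trailingCoeff

theorem Pos.of_coeff {q : ℤ[X]} (h : 0 < q.coeff 0) : Pos q := by
  unfold Pos
  rw [trailingCoeff_eq_coeff_zero h.ne']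
  exact h

theorem Pos.coeff_nonneg {q : ℤ[X]} (h : Pos q) : 0 ≤ q.coeff 0 := by
  by_contra hc
  have h1 : q.coeff 0 ≠ 0 := by omega
  unfold Pos at h
  rw [trailingCoeff_eq_coeff_zero h1] at h
  omega

theorem Pos.X_mul {q : ℤ[X]} (h : Pos q) : Pos (X * q) := by
  unfold Pos at *
  rw [trailingCoeff_mul]
  have : (X : ℤ[X]).trailingCoeff = 1 := by
    have := (trailingCoeff_mul (X : ℤ[X]) 1)
    simp [trailingCoeff]
  rw [this, one_mul]
  exact h

theorem Pos.not_neg {q : ℤ[X]} (h : Pos q) : ¬ Pos (-q) := by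
  unfold Pos at *
  have h1 : -q = C (-1) * q := by simp
  rw [h1, trailingCoeff_mul]
  have : (C (-1) : ℤ[X]).trailingCoeff = -1 := by
    rw [trailingCoeff_eq_coeff_zero] <;> simp
  rw [this]
  omega

theorem not_Pos_zero : ¬ Pos 0 := by
  unfold Pos
  simp

theorem Pos.ne_zero {q : ℤ[X]} (h : Pos q) : q ≠ 0 := by
  rintro rfl
  exact not_Pos_zero h

/-- The second set of coordinates. -/
def Q1 (q : ℤ[X]) : Prop :=
  q = 1 ∨ (∃ (e : ℤ) (r : ℤ[X]), (e = 0 ∨ e = 1) ∧ Pos r ∧ q = 1 - (C e + X * r)) ∨
    ∃ r : ℤ[X], Pos r ∧ q = 1 + r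

/-- The coordinates of type `t`. -/
def Q (t : Bool) (q : ℤ[X]) : Prop := if t then Q1 q else Pos q

/-- The new vertices generated by a frame of type `t`. -/
def N (t : Bool) (P : ℤ[X]) : Prop :=
  ∃ (e : ℤ) (q : ℤ[X]), (e = 0 ∨ e = 1) ∧ Q t q ∧ P = C e + X * q

theorem e_inj {e e' : ℤ} {q q' : ℤ[X]} (h : C e + X * q = C e' + X * q') : e = e' ∧ q = q' := by
  have h0 := congrArg (fun p => coeff p 0) h
  simp only [coeff_add, coeff_C_zero, mul_coeff_zero, coeff_X_zero, zero_mul, add_zero] at h0
  subst h0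
  refine ⟨rfl, ?_⟩
  have h1 : X * q = X * q' := add_left_cancel h
  exact mul_left_cancel₀ X_ne_zero h1

theorem N_false_pos {P : ℤ[X]} (h : N false P) : Pos P := by
  obtain ⟨e, q, he | he, hq, rfl⟩ := h
  · subst he
    simp only [Q, Bool.false_eq_true, if_false] at hq
    simpa using hq.X_mul
  · subst he
    apply Pos.of_coeff
    simp

theorem Q_ne_zero {t : Bool} {q : ℤ[X]} (h : Q t q) : q ≠ 0 := by
  cases t
  · simp only [Q, Bool.false_eq_true, if_false] at h
    exact h.ne_zero
  · simp only [Q, if_true] at h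
    rcases h with h | ⟨e, r, he, hr, h⟩ | ⟨r, hr, h⟩
    · rw [h]; exact one_ne_zero
    · intro h0
      have h1 : C e + X * r = C 1 + X * 0 := by
        rw [h0] at h
        have : C e + X * r = 1 := by linear_combination h
        rw [this]; simp
      exact hr.ne_zero (e_inj h1).2
    · intro h0
      have h1 : r = -1 := by
        rw [h0] at h
        linear_combination -h
      have h2 := hr.coeff_nonneg
      rw [h1] at h2
      simp at h2

theorem Q_one (t : Bool) : Q t 1 := by
  cases t
  · simp only [Q, Bool.false_eq_true, if_false]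
    apply Pos.of_coeff; simp
  · simp only [Q, if_true]
    exact Or.inl rfl

/-- `x` or `1 - x`. -/
noncomputable def sg (t : Bool) (P : ℤ[X]) : ℤ[X] := if t then 1 - P else P

theorem sg_inj {t : Bool} {P P' : ℤ[X]} (h : sg t P = sg t P') : P = P' := by
  cases t
  · simpa [sg] using h
  · simpa [sg] using h

theorem Q_sg {t : Bool} {P : ℤ[X]} (h : N false P) : Q t (sg t P) := by
  cases t
  · simp only [Q, sg, Bool.false_eq_true, if_false]
    exact N_false_pos h
  · simp only [Q, sg, if_true]
    obtain ⟨e, q, he, hq, rfl⟩ := h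
    exact Or.inr (Or.inl ⟨e, q, he, by simpa [Q] using hq, rfl⟩)

theorem Q_add {t : Bool} {q : ℤ[X]} (h : Q (!t) q) : Q t (1 + q) := by
  cases t
  · simp only [Q, Bool.not_false, if_true, Bool.false_eq_true, if_false] at h ⊢
    rcases h with rfl | ⟨e, r, he, hr, rfl⟩ | ⟨r, hr, rfl⟩
    · apply Pos.of_coeff
      norm_num
    · apply Pos.of_coeff
      simp only [coeff_add, coeff_sub, coeff_one_zero, coeff_C_zero, mul_coeff_zero, coeff_X_zero,
        zero_mul, add_zero]
      omega
    · apply Pos.of_coeff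
      have := hr.coeff_nonneg
      simp only [coeff_add, coeff_one_zero]
      omega
  · simp only [Q, Bool.not_true, if_true, Bool.false_eq_true, if_false] at h ⊢
    exact Or.inr (Or.inr ⟨q, h, rfl⟩)

theorem sg_ne_one {t : Bool} {P : ℤ[X]} (h : N false P) : sg t P ≠ 1 := by
  obtain ⟨e, q, he, hq, rfl⟩ := h
  have hq0 := Q_ne_zero hq
  cases t
  · simp only [sg, Bool.false_eq_true, if_false]
    intro h1
    have h2 : C e + X * q = C 1 + X * 0 := by rw [h1]; simp
    exact hq0 (e_inj h2).2
  · simp only [sg, if_true]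
    intro h1
    have h2 : C e + X * q = C 0 + X * 0 := by
      have : C e + X * q = 0 := by linear_combination -h1
      rw [this]; simp
    exact hq0 (e_inj h2).2

theorem sg_ne_add {t : Bool} {P q : ℤ[X]} (h : N false P) (hq : Q (!t) q) :
    sg t P ≠ 1 + q := by
  cases t
  · simp only [Q, Bool.not_false, if_true] at hq
    simp only [sg, Bool.false_eq_true, if_false]
    intro hP
    obtain ⟨e, q', he, hq', rfl⟩ := h
    have h0 := congrArg (fun p => coeff p 0) hP
    simp only [coeff_add, coeff_C_zero, mul_coeff_zero, coeff_X_zero, zero_mul, add_zero,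
      coeff_one_zero] at h0
    rcases hq with rfl | ⟨e', r, he', hr, rfl⟩ | ⟨r, hr, rfl⟩
    · simp only [coeff_one_zero] at h0
      omega
    · simp only [coeff_add, coeff_sub, coeff_one_zero, coeff_C_zero, mul_coeff_zero, coeff_X_zero,
        zero_mul, add_zero] at h0
      have e1 : e = 1 := by omega
      have e2 : e' = 1 := by omega
      subst e1 e2
      have h1 : C 1 + X * q' = C 1 + X * (-r) := by
        rw [hP]
        simp only [map_one]
        ring
      have h2 := (e_inj h1).2
      simp only [Q, Bool.false_eq_true, if_false] at hq'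
      rw [h2] at hq'
      exact hr.not_neg hq'
    · have := hr.coeff_nonneg
      simp only [coeff_add, coeff_one_zero] at h0
      omega
  · simp only [Q, Bool.not_true, Bool.false_eq_true, if_false] at hq
    simp only [sg, if_true]
    intro hP
    have h1 : -P = q := by linear_combination hP
    rw [← h1] at hq
    exact (N_false_pos h).not_neg hq

/-! ### The three frame maps -/

theorem N_X (t : Bool) : N t X := ⟨0, 1, Or.inl rfl, Q_one t, by simp⟩

theorem N_one_add_X (t : Bool) : N t (1 + X) := ⟨1, 1, Or.inr rfl, Q_one t, by simp⟩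

theorem N_A {t : Bool} {P : ℤ[X]} (h : N false P) : N t (X * sg t P) :=
  ⟨0, sg t P, Or.inl rfl, Q_sg h, by simp⟩

theorem N_B {t : Bool} {P : ℤ[X]} (h : N false P) : N t (1 + X * sg t P) :=
  ⟨1, sg t P, Or.inr rfl, Q_sg h, by simp⟩

theorem N_C {t : Bool} {P : ℤ[X]} (h : N (!t) P) : N t (X + P) := by
  obtain ⟨e, q, he, hq, rfl⟩ := h
  exact ⟨e, 1 + q, he, Q_add hq, by ring⟩

theorem N_ne_const {t : Bool} {P : ℤ[X]} (h : N t P) (c : ℤ) : P ≠ C c := by
  obtain ⟨e, q, he, hq, rfl⟩ := h
  intro h1
  have h2 : C e + X * q = C c + X * 0 := by rw [h1]; simp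
  exact Q_ne_zero hq (e_inj h2).2

theorem N_ne_zero {t : Bool} {P : ℤ[X]} (h : N t P) : P ≠ 0 := by
  have := N_ne_const h 0
  simpa using this

theorem N_ne_one {t : Bool} {P : ℤ[X]} (h : N t P) : P ≠ 1 := by
  have := N_ne_const h 1
  simpa using this

theorem A_ne_B {P P' : ℤ[X]} : X * P ≠ 1 + X * P' := by
  intro h
  have h1 : C 0 + X * P = C 1 + X * P' := by simpa using h
  have := (e_inj h1).1
  omega

theorem A_ne_X {t : Bool} {P : ℤ[X]} (h : N false P) : X * sg t P ≠ X := by
  intro h1
  have h2 : C 0 + X * sg t P = C 0 + X * 1 := by simpa using h1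
  exact sg_ne_one h (e_inj h2).2

theorem A_ne_one_add_X {t : Bool} {P : ℤ[X]} : X * sg t P ≠ 1 + X := by
  intro h1
  have h2 : C 0 + X * sg t P = C 1 + X * 1 := by simpa using h1
  have := (e_inj h2).1
  omega

theorem B_ne_one_add_X {t : Bool} {P : ℤ[X]} (h : N false P) : 1 + X * sg t P ≠ 1 + X := by
  intro h1
  have h2 : C 1 + X * sg t P = C 1 + X * 1 := by simpa using h1
  exact sg_ne_one h (e_inj h2).2

theorem B_ne_X {t : Bool} {P : ℤ[X]} : 1 + X * sg t P ≠ X := by
  intro h1
  have h2 : C 1 + X * sg t P = C 0 + X * 1 := by simpa using h1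
  have := (e_inj h2).1
  omega

theorem C_ne_X {t : Bool} {P : ℤ[X]} (h : N t P) : X + P ≠ X := by
  intro h1
  exact N_ne_zero h (by linear_combination h1)

theorem C_ne_one_add_X {t : Bool} {P : ℤ[X]} (h : N t P) : X + P ≠ 1 + X := by
  intro h1
  exact N_ne_one h (by linear_combination h1)

theorem A_ne_C {t : Bool} {P P' : ℤ[X]} (h : N false P) (h' : N (!t) P') :
    X * sg t P ≠ X + P' := by
  obtain ⟨e, q, he, hq, rfl⟩ := h'
  intro h1
  have h2 : C 0 + X * sg t P = C e + X * (1 + q) := by
    simp only [map_zero, zero_add]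
    rw [h1]; ring
  exact sg_ne_add h hq (e_inj h2).2

theorem B_ne_C {t : Bool} {P P' : ℤ[X]} (h : N false P) (h' : N (!t) P') :
    1 + X * sg t P ≠ X + P' := by
  obtain ⟨e, q, he, hq, rfl⟩ := h'
  intro h1
  have h2 : C 1 + X * sg t P = C e + X * (1 + q) := by
    simp only [map_one]
    rw [h1]; ring
  exact sg_ne_add h hq (e_inj h2).2

/-- Differences along edges. -/
def Good (d : ℤ[X]) : Prop :=
  ∃ m : ℕ, d = X ^ m ∨ d = -X ^ m ∨ d = X ^ m * (1 - X) ∨ d = -(X ^ m * (1 - X))

theorem Good.neg {d : ℤ[X]} (h : Good d) : Good (-d) := by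
  obtain ⟨m, h | h | h | h⟩ := h
  · exact ⟨m, Or.inr (Or.inl (by rw [h]))⟩
  · exact ⟨m, Or.inl (by rw [h, neg_neg])⟩
  · exact ⟨m, Or.inr (Or.inr (Or.inr (by rw [h])))⟩
  · exact ⟨m, Or.inr (Or.inr (Or.inl (by rw [h, neg_neg])))⟩

theorem Good.X_mul {d : ℤ[X]} (h : Good d) : Good (X * d) := by
  obtain ⟨m, h | h | h | h⟩ := h
  · exact ⟨m + 1, Or.inl (by rw [h, pow_succ]; ring)⟩
  · exact ⟨m + 1, Or.inr (Or.inl (by rw [h, pow_succ]; ring))⟩
  · exact ⟨m + 1, Or.inr (Or.inr (Or.inl (by rw [h, pow_succ]; ring)))⟩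
  · exact ⟨m + 1, Or.inr (Or.inr (Or.inr (by rw [h, pow_succ]; ring)))⟩

theorem Good_sg {t : Bool} {P P' : ℤ[X]} (h : Good (P' - P)) :
    Good (X * sg t P' - X * sg t P) := by
  cases t
  · simp only [sg, Bool.false_eq_true, if_false]
    rw [← mul_sub]
    exact h.X_mul
  · simp only [sg, if_true]
    have : X * (1 - P') - X * (1 - P) = X * (-(P' - P)) := by ring
    rw [this]
    exact h.neg.X_mul

/-- No two edges interleave. -/
def NC (G : SimpleGraph ℤ) : Prop :=
  ∀ a b c d, a < c → c < b → b < d → G.Adj a b → G.Adj c d → False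

/-- An embedding of the part of `G` on `[i, j]`. -/
structure Emb (G : SimpleGraph ℤ) (i j : ℤ) (t o : Bool) (f : ℤ → ℤ[X]) : Prop where
  left : f i = if o then 1 else 0
  right : f j = if o then 0 else 1
  mem : ∀ k, i < k → k < j → N t (f k)
  inj : ∀ k l, i < k → k < j → i < l → l < j → f k = f l → k = l
  good : ∀ k l, i ≤ k → k < l → l ≤ j → G.Adj k l → Good (f l - f k)

/-- Reflection. -/
def refl (G : SimpleGraph ℤ) : SimpleGraph ℤ := G.comap (fun x => -x)

theorem NC.refl {G : SimpleGraph ℤ} (h : NC G) : NC (refl G) := by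
  intro a b c d h1 h2 h3 h4 h5
  have h4' : G.Adj (-a) (-b) := h4
  have h5' : G.Adj (-c) (-d) := h5
  exact h (-d) (-c) (-b) (-a) (by omega) (by omega) (by omega) h5'.symm h4'.symm

theorem Emb.of_refl {G : SimpleGraph ℤ} {i j : ℤ} {t o : Bool} {f : ℤ → ℤ[X]}
    (h : Emb (refl G) (-j) (-i) t o f) : Emb G i j t (!o) (fun x => f (-x)) where
  left := by
    have := h.right
    cases o <;> simpa using this
  right := by
    have := h.left
    cases o <;> simpa using this
  mem := fun k h1 h2 => h.mem (-k) (by omega) (by omega)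
  inj := fun k l h1 h2 h3 h4 h5 => by
    have := h.inj (-k) (-l) (by omega) (by omega) (by omega) (by omega) h5
    omega
  good := fun k l h1 h2 h3 h4 => by
    have h5 : (refl G).Adj (-l) (-k) := by
      show G.Adj (- -l) (- -k)
      rw [neg_neg, neg_neg]
      exact h4.symm
    have := (h.good (-l) (-k) (by omega) (by omega) (by omega) h5).neg
    rw [neg_sub] at this
    exact this

/-- Splitting vertex. -/
theorem split {G : SimpleGraph ℤ} (h : NC G) {i j : ℤ} (hij : i + 2 ≤ j) :
    ∃ k, i < k ∧ k < j ∧ ∀ a b, i ≤ a → a < b → b ≤ j → G.Adj a b → ¬ (a = i ∧ b = j) →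
      (b ≤ k ∨ k ≤ a) := by
  classical
  set S := (Finset.Ioo i j).filter (fun b => G.Adj i b) with hS
  by_cases hne : S.Nonempty
  · have hk := S.max'_mem hne
    set k := S.max' hne with hkdef
    rw [hS, Finset.mem_filter, Finset.mem_Ioo] at hk
    refine ⟨k, hk.1.1, hk.1.2, ?_⟩
    intro a b h1 h2 h3 h4 h5
    by_cases ha : a = i
    · subst ha
      have hb : b ∈ S := by
        rw [hS, Finset.mem_filter, Finset.mem_Ioo]
        refine ⟨⟨h2, ?_⟩, h4⟩
        rcases lt_or_eq_of_le h3 with h | h
        · exact h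
        · exact absurd ⟨rfl, h⟩ h5
      exact Or.inl (S.le_max' b hb)
    · by_contra hc
      push Not at hc
      exact h i k a b (by omega) hc.2 hc.1 hk.2 h4
  · refine ⟨i + 1, by omega, by omega, ?_⟩
    intro a b h1 h2 h3 h4 h5
    by_cases ha : a = i
    · subst ha
      exfalso
      apply hne
      refine ⟨b, ?_⟩
      rw [hS, Finset.mem_filter, Finset.mem_Ioo]
      refine ⟨⟨h2, ?_⟩, h4⟩
      rcases lt_or_eq_of_le h3 with h | h
      · exact h
      · exact absurd ⟨rfl, h⟩ h5
    · right; omega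

theorem good_one_sub_X : Good (1 - X) := ⟨0, Or.inr (Or.inr (Or.inl (by simp)))⟩

theorem good_one : Good 1 := ⟨0, Or.inl (by simp)⟩

theorem sg_A {G : SimpleGraph ℤ} {i k : ℤ} {t : Bool} {f : ℤ → ℤ[X]}
    (h : Emb G i k false t f) : sg t (f i) = 0 ∧ sg t (f k) = 1 := by
  have h1 := h.left
  have h2 := h.right
  cases t <;> simp [sg, h1, h2]

theorem sg_B {G : SimpleGraph ℤ} {l j : ℤ} {t : Bool} {f : ℤ → ℤ[X]}
    (h : Emb G l j false (!t) f) : sg t (f l) = 1 ∧ sg t (f j) = 0 := by
  have h1 := h.left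
  have h2 := h.right
  cases t <;> simp [sg, h1, h2]

/-- One triangle only. -/
theorem step_one {G : SimpleGraph ℤ} {i k : ℤ} {t : Bool} {fA : ℤ → ℤ[X]}
    (hik : i < k) (hA : Emb G i k false t fA)
    (hs : ∀ a b, i ≤ a → a < b → b ≤ k + 1 → G.Adj a b → ¬ (a = i ∧ b = k + 1) →
      (b ≤ k ∨ k ≤ a)) :
    ∃ f, Emb G i (k + 1) t false f := by
  obtain ⟨hA0, hA1⟩ := sg_A hA
  refine ⟨fun x => if x ≤ k then X * sg t (fA x) else 1, ?_⟩
  have v1 : ∀ x, x ≤ k → (if x ≤ k then X * sg t (fA x) else 1) = X * sg t (fA x) :=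
    fun x hx => if_pos hx
  have v2 : ∀ x, k < x → (if x ≤ k then X * sg t (fA x) else (1 : ℤ[X])) = 1 :=
    fun x hx => if_neg (by omega)
  constructor
  · show (if i ≤ k then X * sg t (fA i) else 1) = _
    rw [v1 i (by omega), hA0]; simp
  · show (if k + 1 ≤ k then X * sg t (fA (k + 1)) else 1) = _
    rw [v2 (k + 1) (by omega)]; simp
  · intro x h1 h2
    show N t (if x ≤ k then X * sg t (fA x) else 1)
    rw [v1 x (by omega)]
    rcases lt_or_eq_of_le (show x ≤ k by omega) with h | h
    · exact N_A (hA.mem x h1 h)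
    · rw [h, hA1, mul_one]; exact N_X t
  · intro x y h1 h2 h3 h4 h5
    rw [v1 x (by omega), v1 y (by omega)] at h5
    rcases lt_or_eq_of_le (show x ≤ k by omega) with h | h <;>
      rcases lt_or_eq_of_le (show y ≤ k by omega) with h' | h'
    · exact hA.inj x y h1 h h3 h' (sg_inj (mul_left_cancel₀ X_ne_zero h5))
    · rw [h', hA1, mul_one] at h5
      exact absurd h5 (A_ne_X (hA.mem x h1 h))
    · rw [h, hA1, mul_one] at h5
      exact absurd h5.symm (A_ne_X (hA.mem y h3 h'))
    · omega
  · intro x y h1 h2 h3 h4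
    by_cases hend : x = i ∧ y = k + 1
    · obtain ⟨rfl, rfl⟩ := hend
      rw [v1 x (by omega), v2 (k + 1) (by omega), hA0]
      simpa using good_one
    · rcases hs x y h1 h2 h3 h4 hend with h | h
      · rw [v1 x (by omega), v1 y h]
        exact Good_sg (hA.good x y h1 h2 h h4)
      · have hx : x = k := by omega
        have hy : y = k + 1 := by omega
        rw [hx, hy, v1 k le_rfl, v2 (k + 1) (by omega), hA1, mul_one]
        exact good_one_sub_X

/-- Two triangles. -/
theorem step_two {G : SimpleGraph ℤ} {i k l j : ℤ} {t : Bool} {fA fB fC : ℤ → ℤ[X]}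
    (hik : i < k) (hkl : k < l) (hlj : l < j) (hA : Emb G i k false t fA)
    (hC : Emb G k l (!t) false fC) (hB : Emb G l j false (!t) fB)
    (hs : ∀ a b, i ≤ a → a < b → b ≤ j → G.Adj a b → ¬ (a = i ∧ b = j) → (b ≤ k ∨ k ≤ a))
    (hs' : ∀ a b, k ≤ a → a < b → b ≤ j → G.Adj a b → ¬ (a = k ∧ b = j) → (b ≤ l ∨ l ≤ a)) :
    ∃ f, Emb G i j t false f := by
  obtain ⟨hA0, hA1⟩ := sg_A hA
  obtain ⟨hB0, hB1⟩ := sg_B hB
  have hC0 : fC k = 0 := by simpa using hC.left
  have hC1 : fC l = 1 := by simpa using hC.right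
  set f : ℤ → ℤ[X] := fun x => if x ≤ k then X * sg t (fA x) else
    if x ≤ l then X + fC x else 1 + X * sg t (fB x) with hf
  have v1 : ∀ x, x ≤ k → f x = X * sg t (fA x) := fun x hx => by
    simp only [hf]; rw [if_pos hx]
  have v2 : ∀ x, k ≤ x → x ≤ l → f x = X + fC x := fun x hx hx' => by
    rcases lt_or_eq_of_le hx with h | h
    · simp only [hf]; rw [if_neg (by omega), if_pos hx']
    · rw [← h, v1 k le_rfl, hA1, hC0]; simp
  have v3 : ∀ x, l ≤ x → f x = 1 + X * sg t (fB x) := fun x hx => by
    rcases lt_or_eq_of_le hx with h | h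
    · simp only [hf]; rw [if_neg (by omega), if_neg (by omega)]
    · rw [← h, v2 l (by omega) le_rfl, hC1, hB0]; ring
  have vk : f k = X := by rw [v1 k le_rfl, hA1, mul_one]
  have vl : f l = 1 + X := by rw [v3 l le_rfl, hB0, mul_one]
  -- classification of interior points
  have cls : ∀ x, i < x → x < j → (x < k) ∨ x = k ∨ (k < x ∧ x < l) ∨ x = l ∨ l < x := by
    intro x _ _; omega
  refine ⟨f, ?_⟩
  constructor
  · rw [v1 i (by omega), hA0]; simp
  · rw [v3 j (by omega), hB1]; simp
  · intro x h1 h2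
    rcases cls x h1 h2 with h | h | h | h | h
    · rw [v1 x (by omega)]; exact N_A (hA.mem x h1 h)
    · rw [h, vk]; exact N_X t
    · rw [v2 x (by omega) (by omega)]; exact N_C (hC.mem x h.1 h.2)
    · rw [h, vl]; exact N_one_add_X t
    · rw [v3 x (by omega)]; exact N_B (hB.mem x h h2)
  · have key : ∀ x y, i < x → x < y → y < j → f x ≠ f y := by
      intro x y h1 hxy h4 h5
      have hne : (X : ℤ[X]) ≠ 1 + X := by
        intro h6
        have h7 : C 0 + X * 1 = C 1 + X * (1 : ℤ[X]) := by
          simp only [map_zero, zero_add, mul_one, map_one]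
          exact h6
        have := (e_inj h7).1
        omega
      rcases cls x h1 (by omega) with h | h | h | h | h <;>
        rcases cls y (by omega) h4 with h' | h' | h' | h' | h'
      · rw [v1 x (by omega), v1 y (by omega)] at h5
        have := hA.inj x y h1 h (by omega) h' (sg_inj (mul_left_cancel₀ X_ne_zero h5))
        omega
      · rw [v1 x (by omega), h', vk] at h5
        exact A_ne_X (hA.mem x h1 h) h5
      · rw [v1 x (by omega), v2 y (by omega) (by omega)] at h5
        exact A_ne_C (hA.mem x h1 h) (hC.mem y h'.1 h'.2) h5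
      · rw [v1 x (by omega), h', vl] at h5
        exact A_ne_one_add_X h5
      · rw [v1 x (by omega), v3 y (by omega)] at h5
        exact A_ne_B h5
      · omega
      · omega
      · rw [h, vk, v2 y (by omega) (by omega)] at h5
        exact C_ne_X (hC.mem y h'.1 h'.2) h5.symm
      · rw [h, h', vk, vl] at h5
        exact hne h5
      · rw [h, vk, v3 y (by omega)] at h5
        exact B_ne_X h5.symm
      · omega
      · omega
      · rw [v2 x (by omega) (by omega), v2 y (by omega) (by omega)] at h5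
        have := hC.inj x y h.1 h.2 h'.1 h'.2 (add_left_cancel h5)
        omega
      · rw [v2 x (by omega) (by omega), h', vl] at h5
        exact C_ne_one_add_X (hC.mem x h.1 h.2) h5
      · rw [v2 x (by omega) (by omega), v3 y (by omega)] at h5
        exact B_ne_C (hB.mem y h' h4) (hC.mem x h.1 h.2) h5.symm
      · omega
      · omega
      · omega
      · omega
      · rw [h, vl, v3 y (by omega)] at h5
        exact B_ne_one_add_X (hB.mem y h' h4) h5.symm
      · omega
      · omega
      · omega
      · omega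
      · rw [v3 x (by omega), v3 y (by omega)] at h5
        have := hB.inj x y h (by omega) h' h4
          (sg_inj (mul_left_cancel₀ X_ne_zero (add_left_cancel h5)))
        omega
    intro x y h1 h2 h3 h4 h5
    rcases lt_trichotomy x y with h | h | h
    · exact absurd h5 (key x y h1 h h4)
    · exact h
    · exact absurd h5.symm (key y x h3 h h2)
  · intro x y h1 h2 h3 h4
    by_cases hend : x = i ∧ y = j
    · obtain ⟨rfl, rfl⟩ := hend
      rw [v1 x (by omega), v3 y (by omega), hA0, hB1]
      simpa using good_one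
    · rcases hs x y h1 h2 h3 h4 hend with h | h
      · rw [v1 x (by omega), v1 y h]
        exact Good_sg (hA.good x y h1 h2 h h4)
      · by_cases hend' : x = k ∧ y = j
        · obtain ⟨rfl, rfl⟩ := hend'
          rw [vk, v3 y (by omega), hB1]
          simpa using good_one_sub_X
        · rcases hs' x y h h2 h3 h4 hend' with h' | h'
          · rw [v2 x h (by omega), v2 y (by omega) h']
            have := hC.good x y h h2 h' h4
            rwa [add_sub_add_left_eq_sub]
          · rw [v3 x h', v3 y (by omega)]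
            have := Good_sg (t := t) (hB.good x y h' h2 h3 h4)
            rwa [add_sub_add_left_eq_sub]

theorem exists_emb : ∀ (n : ℕ) (G : SimpleGraph ℤ), NC G → ∀ (i : ℤ) (t o : Bool),
    ∃ f, Emb G i (i + n + 1) t o f := by
  intro n
  induction n using Nat.strong_induction_on with
  | _ n ih =>
    have main : ∀ (G : SimpleGraph ℤ), NC G → ∀ (i : ℤ) (t : Bool),
        ∃ f, Emb G i (i + n + 1) t false f := by
      intro G hG i t
      rcases Nat.eq_zero_or_pos n with rfl | hn
      · refine ⟨fun x => if x ≤ i then 0 else 1, ?_, ?_, ?_, ?_, ?_⟩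
        · simp
        · simp
        · intro k h1 h2; push_cast at h2; omega
        · intro k l h1 h2 h3 h4; push_cast at h2; omega
        · intro k l h1 h2 h3 h4
          push_cast at h3
          have hk : k = i := by omega
          have hl : l = i + 1 := by omega
          subst hk hl
          simpa using good_one
      · have sub : ∀ (a b : ℤ), i ≤ a → a < b → b ≤ i + n + 1 → b - a < n + 1 →
            ∀ t o, ∃ f, Emb G a b t o f := by
          intro a b h1 h2 h3 h4 t o
          obtain ⟨f, hf⟩ := ih (b - a - 1).toNat (by omega) G hG a t o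
          have : a + ((b - a - 1).toNat : ℤ) + 1 = b := by omega
          rw [this] at hf
          exact ⟨f, hf⟩
        obtain ⟨k, hik, hkj, hs⟩ := split hG (i := i) (j := i + n + 1) (by omega)
        obtain ⟨fA, hA⟩ := sub i k le_rfl hik (by omega) (by omega) false t
        by_cases hk1 : k + 1 = i + n + 1
        · rw [← hk1] at hs ⊢
          exact step_one hik hA hs
        · obtain ⟨l, hkl, hlj, hs'⟩ := split hG (i := k) (j := i + n + 1) (by omega)
          obtain ⟨fC, hC⟩ := sub k l (by omega) hkl (by omega) (by omega) (!t) false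
          obtain ⟨fB, hB⟩ := sub l (i + n + 1) (by omega) hlj (by omega) (by omega) false (!t)
          exact step_two hik hkl hlj hA hC hB hs hs'
    intro G hG i t o
    cases o with
    | false => exact main G hG i t
    | true =>
      obtain ⟨f, hf⟩ := main (refl G) hG.refl (-(i + n + 1)) t
      have h1 : -(i + (n : ℤ) + 1) + n + 1 = -i := by ring
      rw [h1] at hf
      exact ⟨_, hf.of_refl⟩

end Pool.Agent.Q241.OuterFrames
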