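import Mathlib
import Pool.Agent.Q241.AbelWord

/-!
# Exponents with few additive coincidences
-/

namespace Pool.Agent.Q241.SparseExp

open Polynomial Pool.Agent.Q241.AbelWord

/-- The exponents. -/
def E (K k : ℕ) : ℕ := ∑ t ∈ Finset.range k, K ^ (w t).val

theorem E_succ (K k : ℕ) : E K (k + 1) = E K k + K ^ (w k).val := by
  unfold E
  rw [Finset.sum_range_succ]

theorem E_strictMono {K : ℕ} (hK : 1 ≤ K) : StrictMono (E K) := by
  apply strictMono_nat_of_lt_succ
  intro k
  rw [E_succ]
  have : 0 < K ^ (w k).val := Nat.pow_pos hK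
  omega

/-- Letter counts. -/
def cx (x k : ℕ) : ℕ := ((Finset.range k).filter (fun t => (w t).val = x)).card

theorem cx_le (x k : ℕ) : cx x k ≤ k := by
  unfold cx
  refine le_trans (Finset.card_filter_le _ _) ?_
  rw [Finset.card_range]

theorem val_mem (x : ZMod 7) : x.val ∈ Finset.range 7 := by
  rw [Finset.mem_range]
  exact ZMod.val_lt x

theorem E_eq (K k : ℕ) : E K k = ∑ x ∈ Finset.range 7, cx x k * K ^ x := by
  unfold E cx
  rw [← Finset.sum_fiberwise_of_maps_to (s := Finset.range k) (t := Finset.range 7)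
    (g := fun t => (w t).val) (fun t _ => val_mem _)]
  apply Finset.sum_congr rfl
  intro x _
  rw [Finset.sum_congr rfl (g := fun _ => K ^ x), Finset.sum_const, smul_eq_mul]
  intro t ht
  rw [(Finset.mem_filter.mp ht).2]

theorem S_eq (g : ZMod 7 → ℤ) (k : ℕ) :
    S g k = ∑ x ∈ Finset.range 7, (cx x k : ℤ) * g (x : ZMod 7) := by
  unfold S cx
  rw [← Finset.sum_fiberwise_of_maps_to (s := Finset.range k) (t := Finset.range 7)
    (g := fun t => (w t).val) (fun t _ => val_mem _)]
  apply Finset.sum_congr rfl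
  intro x _
  rw [Finset.sum_congr rfl (g := fun _ => g (x : ZMod 7)), Finset.sum_const, nsmul_eq_mul]
  intro t ht
  have h := (Finset.mem_filter.mp ht).2
  rw [← h, ZMod.natCast_zmod_val]

theorem digits_unique (K : ℕ) : ∀ (n : ℕ) (a b : ℕ → ℕ), (∀ x < n, a x < K) →
    (∀ x < n, b x < K) →
    ∑ x ∈ Finset.range n, a x * K ^ x = ∑ x ∈ Finset.range n, b x * K ^ x →
    ∀ x < n, a x = b x := by
  intro n
  induction n with
  | zero => intro a b _ _ _ x hx; omega
  | succ n ih =>
    intro a b ha hb h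
    rw [Finset.sum_range_succ', Finset.sum_range_succ'] at h
    have e : ∀ c : ℕ → ℕ, ∑ x ∈ Finset.range n, c (x + 1) * K ^ (x + 1) =
        (∑ x ∈ Finset.range n, c (x + 1) * K ^ x) * K := by
      intro c
      rw [Finset.sum_mul]
      apply Finset.sum_congr rfl
      intro x _
      rw [pow_succ]; ring
    rw [e, e, pow_zero, mul_one, mul_one] at h
    have ha0 := ha 0 (by omega)
    have hb0 := hb 0 (by omega)
    have h0 : a 0 = b 0 := by
      have h1 := congrArg (fun y => y % K) h
      simp only [Nat.mul_add_mod_self_right, Nat.mod_eq_of_lt ha0, Nat.mod_eq_of_lt hb0] at h1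
      exact h1
    have h2 : ∑ x ∈ Finset.range n, a (x + 1) * K ^ x = ∑ x ∈ Finset.range n, b (x + 1) * K ^ x := by
      rw [h0] at h
      have h3 := Nat.add_right_cancel h
      exact Nat.eq_of_mul_eq_mul_right (by omega) h3
    intro x hx
    rcases x with _ | x
    · exact h0
    · exact ih (fun x => a (x + 1)) (fun x => b (x + 1)) (fun x hx => ha _ (by omega))
        (fun x hx => hb _ (by omega)) h2 x (by omega)

theorem E_coin {K T : ℕ} (hK : 2 * T < K) {k0 k1 k1' k2 : ℕ} (h0 : k0 ≤ T) (h1 : k1 ≤ T)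
    (h1' : k1' ≤ T) (h2 : k2 ≤ T) (h : E K k0 + E K k2 = E K k1 + E K k1') (g : ZMod 7 → ℤ) :
    S g k0 + S g k2 = S g k1 + S g k1' := by
  rw [E_eq, E_eq, E_eq, E_eq, ← Finset.sum_add_distrib, ← Finset.sum_add_distrib] at h
  simp only [← add_mul] at h
  have hd := digits_unique K 7 (fun x => cx x k0 + cx x k2) (fun x => cx x k1 + cx x k1')
    (fun x _ => by
      have := cx_le x k0
      have := cx_le x k2
      show cx x k0 + cx x k2 < K
      omega)
    (fun x _ => by
      have := cx_le x k1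
      have := cx_le x k1'
      show cx x k1 + cx x k1' < K
      omega) h
  rw [S_eq, S_eq, S_eq, S_eq, ← Finset.sum_add_distrib, ← Finset.sum_add_distrib]
  apply Finset.sum_congr rfl
  intro x hx
  have h3 : cx x k0 + cx x k2 = cx x k1 + cx x k1' := hd x (Finset.mem_range.mp hx)
  rw [← add_mul, ← add_mul]
  congr 1
  exact_mod_cast h3

theorem no_sum {K T : ℕ} (hK : 2 * T < K) {k0 k1 k1' k2 : ℕ} (h2 : k2 ≤ T)
    (h01 : k0 < k1) (h11 : k1 ≤ k1') (h11' : k1' ≤ k1 + 1) (h12 : k1' < k2) :
    E K k0 + E K k2 ≠ E K k1 + E K k1' := fun h =>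
  no_coin k2 k0 k1 k1' ⟨h01, h11, h11', h12,
    fun g => E_coin hK (by omega) (by omega) (by omega) h2 h g⟩

/-! ### Substituting the exponents -/

/-- Replace `X^k` by `X^(E k)` for `k ≤ T`. -/
noncomputable def hat (K T : ℕ) (q : ℤ[X]) : ℤ[X] :=
  ∑ k ∈ Finset.range (T + 1), C (q.coeff k) * X ^ (E K k)

theorem hat_sub (K T : ℕ) (q r : ℤ[X]) : hat K T (q - r) = hat K T q - hat K T r := by
  unfold hat
  rw [← Finset.sum_sub_distrib]
  apply Finset.sum_congr rfl
  intro k _
  rw [coeff_sub, C_sub, sub_mul]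

theorem hat_neg (K T : ℕ) (q : ℤ[X]) : hat K T (-q) = -hat K T q := by
  have h := hat_sub K T 0 q
  have h0 : hat K T 0 = 0 := by simp [hat]
  rw [h0, zero_sub, zero_sub] at h
  exact h

theorem coeff_hat_E {K T : ℕ} (hK : 1 ≤ K) (q : ℤ[X]) {k : ℕ} (hk : k ≤ T) :
    (hat K T q).coeff (E K k) = q.coeff k := by
  unfold hat
  rw [finsetSum_coeff, Finset.sum_eq_single k]
  · simp
  · intro j _ hj
    rw [coeff_C_mul, coeff_X_pow, if_neg, mul_zero]
    intro h
    exact hj ((E_strictMono hK).injective h.symm)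
  · intro h
    exact absurd (Finset.mem_range.mpr (by omega)) h

theorem coeff_hat_ne {K T : ℕ} (q : ℤ[X]) {j : ℕ} (h : (hat K T q).coeff j ≠ 0) :
    ∃ k ≤ T, E K k = j := by
  by_contra hcon
  push Not at hcon
  apply h
  unfold hat
  rw [finsetSum_coeff]
  apply Finset.sum_eq_zero
  intro k hk
  rw [coeff_C_mul, coeff_X_pow, if_neg, mul_zero]
  have := Finset.mem_range.mp hk
  exact fun h => hcon k (by omega) h.symm

theorem hat_X_pow {K T m : ℕ} (hm : m ≤ T) : hat K T (X ^ m) = X ^ (E K m) := by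
  unfold hat
  rw [Finset.sum_eq_single m]
  · simp
  · intro j _ hj
    rw [coeff_X_pow, if_neg hj]
    simp
  · intro h
    exact absurd (Finset.mem_range.mpr (by omega)) h

/-! ### Real multiples -/

theorem aeval_inv {z : ℂ} (hz : ‖z‖ = 1) (Q : ℤ[X]) :
    (starRingEnd ℂ) (aeval z Q) = aeval z⁻¹ Q := by
  have h1 : (starRingEnd ℂ) z = z⁻¹ := by
    rw [Complex.inv_def, Complex.normSq_eq_norm_sq, hz]; simp
  rw [← h1, aeval_def, aeval_def, eval₂_eq_sum_range, eval₂_eq_sum_range, map_sum]
  apply Finset.sum_congr rfl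
  intro i _
  rw [map_mul, map_pow]
  congr 1
  simp

theorem aeval_reflect {z : ℂ} (hz0 : z ≠ 0) (N : ℕ) (Q : ℤ[X]) (hN : Q.natDegree ≤ N) :
    aeval z (reflect N Q) = z ^ N * aeval z⁻¹ Q := by
  let _ : Invertible z⁻¹ := invertibleOfNonzero (inv_ne_zero hz0)
  have h := eval₂_reflect_mul_pow (algebraMap ℤ ℂ) z⁻¹ N Q hN
  have h1 : ⅟(z⁻¹) = z := by simp
  rw [h1] at h
  rw [aeval_def, aeval_def, ← h]
  rw [inv_pow]
  have : z ^ N ≠ 0 := pow_ne_zero _ hz0
  field_simp

/-- Antisymmetry or symmetry of coefficients from a functional equation. -/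
theorem coeff_symm {z : ℂ} (hz : ‖z‖ = 1) (htr : Transcendental ℤ z) (Q : ℤ[X]) (M : ℕ) (s : ℤ)
    (h : aeval z Q = s * z ^ M * aeval z⁻¹ Q) (j : ℕ) :
    (j ≤ M → Q.coeff j = s * Q.coeff (M - j)) ∧ (M < j → Q.coeff j = 0) := by
  have hz0 : z ≠ 0 := by
    intro h0
    rw [h0] at hz
    simp at hz
  set N := max Q.natDegree M with hN
  have hr := aeval_reflect hz0 N Q (le_max_left _ _)
  have heq : aeval z (X ^ N * Q - C s * X ^ M * reflect N Q) = 0 := by
    rw [map_sub, map_mul, map_mul, map_mul, map_pow, map_pow, aeval_X, hr, h, aeval_C]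
    simp only [eq_intCast]
    ring
  have hzero : X ^ N * Q - C s * X ^ M * reflect N Q = 0 := by
    by_contra hne
    exact htr ⟨_, hne, heq⟩
  have hcoeff := congrArg (fun p => coeff p (N + j)) (sub_eq_zero.mp hzero)
  have hMN : M ≤ N := le_max_right _ _
  rw [add_comm N j, coeff_X_pow_mul, mul_assoc, coeff_C_mul] at hcoeff
  have h2 : j + N = (j + N - M) + M := by omega
  rw [h2, coeff_X_pow_mul, coeff_reflect] at hcoeff
  constructor
  · intro hj
    rw [revAt_le (by omega)] at hcoeff
    rw [hcoeff]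
    congr 2
    omega
  · intro hj
    have h3 : revAt N (j + N - M) = j + N - M := by
      show revAtFun N (j + N - M) = _
      unfold revAtFun
      rw [if_neg (by omega)]
    rw [h3, coeff_eq_zero_of_natDegree_lt (p := Q) (n := j + N - M)] at hcoeff
    · rw [hcoeff, mul_zero]
    · have : Q.natDegree ≤ N := le_max_left _ _
      omega

theorem ne_zero_of_norm {z : ℂ} (hz : ‖z‖ = 1) : z ≠ 0 := by
  intro h0
  rw [h0] at hz
  simp at hz

theorem conj_real_smul {z : ℂ} (hz : ‖z‖ = 1) {Q R : ℤ[X]} {b : ℝ}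
    (h : aeval z Q = (b : ℂ) * aeval z R) : aeval z⁻¹ Q = (b : ℂ) * aeval z⁻¹ R := by
  rw [← aeval_inv hz, ← aeval_inv hz, h, map_mul, Complex.conj_ofReal]

theorem int_not_between {b : ℝ} (hb0 : 0 < b) (hb1 : b < 1) (c : ℤ) : (c : ℝ) ≠ b := by
  intro h
  rw [← h] at hb0 hb1
  have h1 : (0 : ℤ) < c := by exact_mod_cast hb0
  have h2 : c < (1 : ℤ) := by exact_mod_cast hb1
  omega

theorem real_one {K T : ℕ} (hK : 2 * T < K) {z : ℂ} (hz : ‖z‖ = 1) (htr : Transcendental ℤ z)
    (D : ℤ[X]) {m : ℕ} (hm : m ≤ T) {b : ℝ} (hb0 : 0 < b) (hb1 : b < 1)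
    (h : aeval z (hat K T D) = (b : ℂ) * aeval z (hat K T (X ^ m))) : False := by
  have hK1 : 1 ≤ K := by omega
  have hz0 := ne_zero_of_norm hz
  have hinv := conj_real_smul hz h
  rw [hat_X_pow hm, map_pow, aeval_X] at h hinv
  have hfun : aeval z (hat K T D) = ((1 : ℤ) : ℂ) * z ^ (2 * E K m) * aeval z⁻¹ (hat K T D) := by
    rw [h, hinv, inv_pow]
    have : z ^ E K m ≠ 0 := pow_ne_zero _ hz0
    field_simp
    rw [two_mul, pow_add]
    push_cast
    ring
  have hsym := coeff_symm hz htr _ _ 1 hfun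
  have hzero : ∀ k ≤ T, k ≠ m → D.coeff k = 0 := by
    intro k hk hkm
    by_contra hne
    have h1 := hsym (E K k)
    rw [coeff_hat_E hK1 D hk] at h1
    have h2 : E K k ≤ 2 * E K m := by
      by_contra hc
      exact hne (h1.2 (by omega))
    have h3 := h1.1 h2
    rw [one_mul] at h3
    obtain ⟨k', hk', he⟩ := coeff_hat_ne (K := K) (T := T) D (j := 2 * E K m - E K k)
      (by rw [← h3]; exact hne)
    have hsum : E K k + E K k' = 2 * E K m := by omega
    have hmono := E_strictMono hK1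
    rcases lt_trichotomy k m with hlt | heq | hgt
    · have h4 := hmono hlt
      have h5 : m < k' := by
        by_contra hc
        have := hmono.monotone (not_lt.mp hc)
        omega
      exact no_sum hK hk' hlt le_rfl (by omega) h5 (by omega)
    · exact hkm heq
    · have h4 := hmono hgt
      have h5 : k' < m := by
        by_contra hc
        have := hmono.monotone (not_lt.mp hc)
        omega
      exact no_sum hK hk h5 le_rfl (by omega) hgt (by omega)
  have hD : aeval z (hat K T D) = (D.coeff m : ℂ) * z ^ E K m := by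
    unfold hat
    rw [Finset.sum_eq_single m]
    · simp
    · intro j hj hjm
      rw [hzero j (by have := Finset.mem_range.mp hj; omega) hjm]
      simp
    · intro hc
      exact absurd (Finset.mem_range.mpr (by omega)) hc
  rw [hD] at h
  have h6 := mul_right_cancel₀ (pow_ne_zero _ hz0) h
  exact int_not_between hb0 hb1 (D.coeff m) (by exact_mod_cast h6)

theorem real_two {K T : ℕ} (hK : 2 * T < K) {z : ℂ} (hz : ‖z‖ = 1) (htr : Transcendental ℤ z)
    (D : ℤ[X]) {m : ℕ} (hm : m + 1 ≤ T) {b : ℝ} (hb0 : 0 < b) (hb1 : b < 1)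
    (h : aeval z (hat K T D) = (b : ℂ) * aeval z (hat K T (X ^ m * (1 - X)))) : False := by
  have hK1 : 1 ≤ K := by omega
  have hz0 := ne_zero_of_norm hz
  have hinv := conj_real_smul hz h
  have hX : hat K T (X ^ m * (1 - X)) = X ^ (E K m) - X ^ (E K (m + 1)) := by
    have : (X : ℤ[X]) ^ m * (1 - X) = X ^ m - X ^ (m + 1) := by rw [pow_succ]; ring
    rw [this, hat_sub, hat_X_pow (by omega), hat_X_pow hm]
  rw [hX, map_sub, map_pow, map_pow, aeval_X] at h hinv
  have hp1 : z ^ E K m ≠ 0 := pow_ne_zero _ hz0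
  have hp2 : z ^ E K (m + 1) ≠ 0 := pow_ne_zero _ hz0
  have hfun : aeval z (hat K T D) =
      ((-1 : ℤ) : ℂ) * z ^ (E K m + E K (m + 1)) * aeval z⁻¹ (hat K T D) := by
    rw [h, hinv, inv_pow, inv_pow, pow_add]
    field_simp
    push_cast
    ring
  have hsym := coeff_symm hz htr _ _ (-1) hfun
  have hmono := E_strictMono hK1
  have key : ∀ k ≤ T, D.coeff k ≠ 0 → ∃ k' ≤ T, E K k + E K k' = E K m + E K (m + 1) ∧
      D.coeff k = - D.coeff k' := by
    intro k hk hne
    have h1 := hsym (E K k)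
    rw [coeff_hat_E hK1 D hk] at h1
    have h2 : E K k ≤ E K m + E K (m + 1) := by
      by_contra hc
      exact hne (h1.2 (by omega))
    have h3 := h1.1 h2
    obtain ⟨k', hk', he⟩ := coeff_hat_ne (K := K) (T := T) D (j := E K m + E K (m + 1) - E K k)
      (by
        intro h0
        rw [h0, mul_zero] at h3
        exact hne h3)
    refine ⟨k', hk', by omega, ?_⟩
    rw [h3, ← he, coeff_hat_E hK1 D hk']
    ring
  have hzero : ∀ k ≤ T, k ≠ m → k ≠ m + 1 → D.coeff k = 0 := by
    intro k hk hkm hkm'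
    by_contra hne
    obtain ⟨k', hk', hsum, _⟩ := key k hk hne
    rcases lt_or_gt_of_ne hkm with hlt | hgt
    · have h4 := hmono hlt
      have h5 : m + 1 < k' := by
        by_contra hc
        have := hmono.monotone (not_lt.mp hc)
        omega
      exact no_sum hK hk' hlt (by omega) (by omega) h5 hsum
    · have hgt' : m + 1 < k := by omega
      have h4 := hmono hgt'
      have h5 : k' < m := by
        by_contra hc
        have := hmono.monotone (not_lt.mp hc)
        omega
      exact no_sum hK hk h5 (k1 := m) (k1' := m + 1) (by omega) (by omega) hgt' (by omega)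
  have hanti : D.coeff (m + 1) = - D.coeff m := by
    have hlt := hmono (Nat.lt_succ_self m)
    have hmm : E K m < E K (m + 1) := hlt
    by_cases h1 : D.coeff m = 0
    · by_contra hne
      have hne' : D.coeff (m + 1) ≠ 0 := by
        intro h2
        exact hne (by rw [h1, h2]; ring)
      obtain ⟨k', hk', hsum, hc⟩ := key (m + 1) hm hne'
      have hk'm : k' = m := hmono.injective (by omega)
      rw [hk'm, h1] at hc
      exact hne' (by rw [hc]; ring)
    · obtain ⟨k', hk', hsum, hc⟩ := key m (by omega) h1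
      have hk'm : k' = m + 1 := hmono.injective (by omega)
      rw [hk'm] at hc
      rw [hc]; ring
  have hD : aeval z (hat K T D) = (D.coeff m : ℂ) * (z ^ E K m - z ^ E K (m + 1)) := by
    unfold hat
    rw [← Finset.add_sum_erase _ _ (Finset.mem_range.mpr (show m < T + 1 by omega)),
      ← Finset.add_sum_erase _ _ (Finset.mem_erase.mpr ⟨(show m + 1 ≠ m by omega),
        Finset.mem_range.mpr (show m + 1 < T + 1 by omega)⟩), Finset.sum_eq_zero]
    · rw [hanti]
      simp
      ring
    · intro j hj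
      rw [Finset.mem_erase, Finset.mem_erase, Finset.mem_range] at hj
      rw [hzero j (by omega) hj.2.1 hj.1]
      simp
  rw [hD] at h
  have hne : z ^ E K m - z ^ E K (m + 1) ≠ 0 := by
    intro h0
    have h1 : aeval z (X ^ (E K m) - X ^ (E K (m + 1)) : ℤ[X]) = 0 := by
      rw [map_sub, map_pow, map_pow, aeval_X]; exact h0
    have h2 : (X ^ (E K m) - X ^ (E K (m + 1)) : ℤ[X]) ≠ 0 := by
      intro h3
      have h4 := congrArg (fun p => coeff p (E K m)) h3
      have h5 : E K m ≠ E K (m + 1) := (hmono (Nat.lt_succ_self m)).ne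
      simp [coeff_X_pow, h5] at h4
    exact htr ⟨_, h2, h1⟩
  have h6 := mul_right_cancel₀ hne h
  exact int_not_between hb0 hb1 (D.coeff m) (by exact_mod_cast h6)

end Pool.Agent.Q241.SparseExp
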